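import Pool.Agent.H68.QC.Targets

/-!
# Module AVJ: a machine of the hierarchy is not right in most simulations
-/

set_option autoImplicit false

namespace Pool.Agent.H81.QC

open Finset Filter Pool.Agent.H6.NB Pool.Agent.H70.OQ Pool.Agent.H70.RK Pool.Agent.H70.RC
open Pool.Agent.H68.QC
open Pool.Agent.H70.RW (SimK)

theorem nonempty_hid (n : ℕ) : ∀ k : ℕ, Nonempty (Hid (Fin n → Bool) (Ys n) k)
  | 0 => ⟨()⟩
  | k + 1 => by
    obtain ⟨H⟩ := nonempty_hid n k
    exact ⟨(H, fun _ _ => false)⟩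

/-- Half of the rows begin with a given bit. -/
theorem card_half (n : ℕ) (b : Bool) :
    (univ.filter fun x : Fin (n + 1) → Bool => x 0 = b).card = 2 ^ n := by
  have h1 : (univ.filter fun x : Fin (n + 1) → Bool => x 0 = b) =
      (univ : Finset (Fin n → Bool)).map
        ⟨fun y => Fin.cons b y, fun y y' h => by
          exact Fin.cons_right_injective (α := fun _ => Bool) b h⟩ := by
    ext x
    simp only [mem_filter, mem_univ, true_and, Finset.mem_map, Function.Embedding.coeFn_mk]
    constructor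
    · intro h
      refine ⟨Fin.tail x, ?_⟩
      rw [← h]
      exact Fin.cons_self_tail x
    · rintro ⟨y, rfl⟩
      exact Fin.cons_zero (α := fun _ => Bool) b y
  rw [h1, card_map, card_univ, Fintype.card_fun]
  simp

/-- The double counting: a rare event for every `p` is rare for some `i`. -/
theorem dcount {P : Type} [Fintype P] (N : ℕ) (B : Fin (N + 1) → P → Prop)
    (h : ∀ p, 100 * {i | B i p}.ncard ≤ N + 1) :
    ∃ i, 100 * {p | B i p}.ncard ≤ Fintype.card P := by
  classical
  by_contra hcon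
  push Not at hcon
  have e1 : ∀ p, {i | B i p}.ncard = (univ.filter fun i => B i p).card := fun p => by
    rw [← Set.ncard_coe_finset]
    congr 1
    ext i
    simp
  have e2 : ∀ i, {p | B i p}.ncard = (univ.filter fun p => B i p).card := fun i => by
    rw [← Set.ncard_coe_finset]
    congr 1
    ext i
    simp
  have s1 : ∑ i : Fin (N + 1), (univ.filter fun p => B i p).card =
      ∑ p : P, (univ.filter fun i => B i p).card := by
    simp only [card_filter]
    exact sum_comm
  have s2 : ∑ p : P, 100 * (univ.filter fun i => B i p).card ≤ ∑ _p : P, (N + 1) :=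
    sum_le_sum fun p _ => by
      have := h p
      rwa [e1 p] at this
  have s3 : ∑ _i : Fin (N + 1), Fintype.card P < ∑ i : Fin (N + 1),
      100 * (univ.filter fun p => B i p).card :=
    sum_lt_sum_of_nonempty ⟨0, mem_univ _⟩ fun i _ => by
      have := hcon i
      rwa [e2 i] at this
  rw [← mul_sum, s1, mul_sum] at s3
  rw [sum_const, card_univ, Fintype.card_fin, smul_eq_mul] at s3
  rw [sum_const, card_univ, smul_eq_mul] at s2
  have : (N + 1) * Fintype.card P < Fintype.card P * (N + 1) := lt_of_lt_of_le s3 s2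
  rw [mul_comm] at this
  exact lt_irrefl _ this

/-- The value of `fX`. -/
theorem fX_val {l n N : ℕ} {X : (Fin N → Bool) → Bool} {b : Bool} (h : fX l n N X = some b) :
    (List.replicate n false ∈ hlang l (orc N X) ↔ b = true) := by
  unfold fX at h
  split_ifs at h with h1
  rw [Option.some_inj] at h
  rw [← h]
  simp

theorem core (hMKX : T_MKX) (hFXU : T_FXU) (hARN : T_ARN) (hAMN : T_AMN) (hSCX : T_SCX)
    (l n k m m' : ℕ) (hm : m ≤ m') (P1 P0 : (List Bool → Bool) → Prop)
    (hT : ∀ e : List Bool → (Nn (n + 1) l → Bool) → Bool,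
      (∀ w, Adp (Qst (Nn (n + 1) l) m' k) m' (e w)) → ∃ K : ℕ, 100 * K ≤ 2 ^ (n + 1) ∧
      100 * {H : Hid (Fin (n + 1) → Bool) (Ys (n + 1)) l |
        Bad true K l (fun y => P1 fun w => e w y) (fun y => P0 fun w => e w y) H}.ncard ≤
        Fintype.card (Hid (Fin (n + 1) → Bool) (Ys (n + 1)) l)) :
    ¬ SimK k (nod (n + 1) l) m (fun O =>
      (List.replicate (n + 1) false ∈ hlang l O → P1 O) ∧
        (List.replicate (n + 1) false ∉ hlang l O → P0 O)) (fX l (n + 1) (nod (n + 1) l)) := by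
  classical
  rintro ⟨e, hadp, hdom⟩
  let XX : Hid (Fin (n + 1) → Bool) (Ys (n + 1)) l × (Fin (n + 1) → Bool) → (Fin (nod (n + 1) l) → Bool) → Bool :=
    fun p => mkX (n + 1) l (nod (n + 1) l) (tabU l p.1 p.2)
  let B : Fin (2 ^ (nod (n + 1) l) + 1) → Hid (Fin (n + 1) → Bool) (Ys (n + 1)) l × (Fin (n + 1) → Bool) → Prop :=
    fun i p => ¬ (sec (fun w => e i w (XX p)) (nod (n + 1) l) = XX p ∧
      ((List.replicate (n + 1) false ∈ hlang l (fun w => e i w (XX p)) → P1 (fun w => e i w (XX p))) ∧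
        (List.replicate (n + 1) false ∉ hlang l (fun w => e i w (XX p)) →
          P0 (fun w => e i w (XX p)))))
  have hfx : ∀ p, fX l (n + 1) (nod (n + 1) l) (XX p) = some (p.2 0) := fun p => (hFXU l n p.1 p.2).1
  have hB : ∀ p, 100 * {i | B i p}.ncard ≤ 2 ^ (nod (n + 1) l) + 1 := fun p => by
    have h1 := hdom (XX p) (by rw [hfx p]; simp)
    exact h1
  obtain ⟨i, hi⟩ := dcount (2 ^ nod (n + 1) l) B hB
  obtain ⟨φ, hφ⟩ := (hMKX (n + 1) l (fun _ => true)).2
  have hadp' : ∀ w, Adp (Qst (Nn (n + 1) l) m' k) m' fun y => e i w (mkX (n + 1) l (nod (n + 1) l) y) := fun w => by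
    have h1 := hARN (Fin (nod (n + 1) l) → Bool) (Nn (n + 1) l) φ m m k (e i w) (hadp i w)
    have h2 := hAMN (Nn (n + 1) l) m m' k _ hm h1
    have h3 : (fun y : Nn (n + 1) l → Bool => e i w (mkX (n + 1) l (nod (n + 1) l) y)) =
        fun y => e i w fun v => y (φ v) := by
      funext y
      congr 1
      funext v
      exact hφ y v
    rw [h3]
    exact h2
  obtain ⟨K, hK, hbad⟩ := hT (fun w y => e i w (mkX (n + 1) l (nod (n + 1) l) y)) hadp'
  -- the good rows
  have hgood : ∀ (H : Hid (Fin (n + 1) → Bool) (Ys (n + 1)) l) (x : Fin (n + 1) → Bool),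
      ¬ B i (H, x) → (x 0 = true → P1 (fun w => e i w (mkX (n + 1) l (nod (n + 1) l) (tabU l H x)))) ∧
        (x 0 = false → P0 (fun w => e i w (mkX (n + 1) l (nod (n + 1) l) (tabU l H x)))) := by
    intro H x hx
    have h1 : sec (fun w => e i w (XX (H, x))) (nod (n + 1) l) = XX (H, x) ∧
      ((List.replicate (n + 1) false ∈ hlang l (fun w => e i w (XX (H, x))) →
        P1 (fun w => e i w (XX (H, x)))) ∧
        (List.replicate (n + 1) false ∉ hlang l (fun w => e i w (XX (H, x))) →
          P0 (fun w => e i w (XX (H, x))))) := not_not.mp hx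
    obtain ⟨h2, h3, h4⟩ := h1
    have h5 := (hSCX l (n + 1) (fun w => e i w (XX (H, x))) (XX (H, x)) h2).2
    have h6 := fX_val (hfx (H, x))
    refine ⟨fun hx0 => h3 ?_, fun hx0 => h4 ?_⟩
    · rw [h5, h6]
      exact hx0
    · rw [h5, h6]
      show ¬ (x 0 = true)
      rw [hx0]
      simp
  -- the count for a hidden part which is not bad
  have hcnt : ∀ H : Hid (Fin (n + 1) → Bool) (Ys (n + 1)) l,
      ¬ Bad true K l (fun y => P1 fun w => e i w (mkX (n + 1) l (nod (n + 1) l) y))
        (fun y => P0 fun w => e i w (mkX (n + 1) l (nod (n + 1) l) y)) H →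
      2 ^ n ≤ K + (univ.filter fun x : Fin (n + 1) → Bool => B i (H, x)).card := by
    intro H hH
    have key : ∀ (b : Bool) (Q : (Fin (n + 1) → Bool) → Prop), {x | Q x}.ncard ≤ K →
        (∀ x, ¬ B i (H, x) → x 0 = b → Q x) →
        2 ^ n ≤ K + (univ.filter fun x : Fin (n + 1) → Bool => B i (H, x)).card := by
      intro b Q hQ himp
      rw [← card_half n b]
      have e1 : {x | Q x}.ncard = (univ.filter fun x => Q x).card := by
        rw [← Set.ncard_coe_finset]
        congr 1
        ext x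
        simp
      rw [e1] at hQ
      refine le_trans (card_le_card (t := (univ.filter fun x => Q x) ∪
        (univ.filter fun x : Fin (n + 1) → Bool => B i (H, x))) ?_)
        (le_trans (card_union_le _ _) (Nat.add_le_add_right hQ _))
      intro x hx
      rw [mem_filter] at hx
      rw [mem_union, mem_filter, mem_filter]
      by_cases hb : B i (H, x)
      · exact Or.inr ⟨mem_univ _, hb⟩
      · exact Or.inl ⟨mem_univ _, himp x hb hx.2⟩
    have hH' : ¬ (K < {x | P1 fun w => e i w (mkX (n + 1) l (nod (n + 1) l) (tabU l H x))}.ncard ∧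
        K < {x | P0 fun w => e i w (mkX (n + 1) l (nod (n + 1) l) (tabU l H x))}.ncard) := hH
    rw [not_and_or, not_lt, not_lt] at hH'
    rcases hH' with h | h
    · exact key true _ h fun x hx h0 => (hgood H x hx).1 h0
    · exact key false _ h fun x hx h0 => (hgood H x hx).2 h0
  -- the final count
  set cH := Fintype.card (Hid (Fin (n + 1) → Bool) (Ys (n + 1)) l) with hcH
  have hpos : 0 < cH := by
    have := nonempty_hid (n + 1) l
    exact Fintype.card_pos
  set bs := (univ.filter fun H : Hid (Fin (n + 1) → Bool) (Ys (n + 1)) l =>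
      Bad true K l (fun y => P1 fun w => e i w (mkX (n + 1) l (nod (n + 1) l) y))
        (fun y => P0 fun w => e i w (mkX (n + 1) l (nod (n + 1) l) y)) H) with hbs
  have hbs' : 100 * bs.card ≤ cH := by
    have e1 : {H : Hid (Fin (n + 1) → Bool) (Ys (n + 1)) l |
      Bad true K l (fun y => P1 fun w => e i w (mkX (n + 1) l (nod (n + 1) l) y))
        (fun y => P0 fun w => e i w (mkX (n + 1) l (nod (n + 1) l) y)) H}.ncard = bs.card := by
      rw [← Set.ncard_coe_finset]
      congr 1
      ext H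
      simp [hbs]
    rw [← e1]
    exact hbad
  have htot : {p | B i p}.ncard = ∑ H : Hid (Fin (n + 1) → Bool) (Ys (n + 1)) l,
      (univ.filter fun x : Fin (n + 1) → Bool => B i (H, x)).card := by
    have e1 : {p | B i p}.ncard = (univ.filter fun p => B i p).card := by
      rw [← Set.ncard_coe_finset]
      congr 1
      ext p
      simp
    rw [e1]
    simp only [card_filter]
    exact Fintype.sum_prod_type _
  have hlow : (cH - bs.card) * (2 ^ n - K) ≤ {p | B i p}.ncard := by
    rw [htot]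
    have e2 : (bsᶜ).card = cH - bs.card := card_compl _
    rw [← e2, ← smul_eq_mul, ← sum_const]
    refine le_trans (sum_le_sum (g := fun H =>
      (univ.filter fun x : Fin (n + 1) → Bool => B i (H, x)).card) fun H hH => ?_)
      (sum_le_sum_of_subset (subset_univ _))
    rw [mem_compl, hbs, mem_filter] at hH
    have := hcnt H fun hc => hH ⟨mem_univ _, hc⟩
    omega
  have hup : 100 * {p | B i p}.ncard ≤ cH * 2 ^ (n + 1) := by
    refine le_trans hi (le_of_eq ?_)
    rw [Fintype.card_prod, Fintype.card_fun, Fintype.card_bool, Fintype.card_fin]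
  -- numbers
  have hp : 1 ≤ 2 ^ n := Nat.one_le_two_pow
  have hlow' : ((cH : ℝ) - bs.card) * ((2 : ℝ) ^ n - K) ≤ ({p | B i p}.ncard : ℝ) := by
    have h1 : bs.card ≤ cH := by omega
    have h2 : K ≤ 2 ^ n := by
      rw [pow_succ] at hK
      omega
    have h3 : (((cH - bs.card) * (2 ^ n - K) : ℕ) : ℝ) ≤ ({p | B i p}.ncard : ℝ) := by
      exact_mod_cast hlow
    rw [Nat.cast_mul, Nat.cast_sub h1, Nat.cast_sub h2] at h3
    push_cast at h3
    exact h3
  have hup' : 100 * ({p | B i p}.ncard : ℝ) ≤ (cH : ℝ) * (2 : ℝ) ^ (n + 1) := by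
    exact_mod_cast hup
  have hK' : 100 * (K : ℝ) ≤ (2 : ℝ) ^ (n + 1) := by exact_mod_cast hK
  have hbs2 : 100 * (bs.card : ℝ) ≤ (cH : ℝ) := by exact_mod_cast hbs'
  have hpos' : (0 : ℝ) < (cH : ℝ) := by exact_mod_cast hpos
  have hp2 : (0 : ℝ) < (2 : ℝ) ^ n := by positivity
  rw [pow_succ] at hup' hK'
  have h1 : (99 / 100 : ℝ) * cH ≤ (cH : ℝ) - bs.card := by linarith
  have h2 : (98 / 100 : ℝ) * (2 : ℝ) ^ n ≤ (2 : ℝ) ^ n - K := by linarith
  have h3 : (99 / 100 : ℝ) * cH * ((98 / 100 : ℝ) * (2 : ℝ) ^ n) ≤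
      ((cH : ℝ) - bs.card) * ((2 : ℝ) ^ n - K) :=
    mul_le_mul h1 h2 (by positivity) (by linarith)
  have h4 : (0 : ℝ) < (cH : ℝ) * (2 : ℝ) ^ n := mul_pos hpos' hp2
  nlinarith

/-- **AVJ.** -/
theorem pf_AVJ (hTJJ : T_TJJ) (hTJ0 : T_TJ0) (hMKX : T_MKX) (hFXU : T_FXU) (hARN : T_ARN)
    (hAMN : T_AMN) (hSCX : T_SCX) : T_AVJ := by
  intro k j c C ε hk hε
  have hmax : ∀ n c m : ℕ, 1 ≤ n → m ≤ n ^ c → max m 1 ≤ n ^ c := fun n c m hn hm =>
    max_le hm (Nat.one_le_pow _ _ hn)
  rcases j with _ | i0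
  · obtain ⟨k', rfl⟩ : ∃ k', k = k' + 1 := ⟨k - 1, by omega⟩
    filter_upwards [hTJ0 k' c C ε hε, eventually_ge_atTop 1] with n hn hn1 mw m alg hmw hm hadm
    obtain ⟨n', rfl⟩ : ∃ n', n = n' + 1 := ⟨n - 1, by omega⟩
    exact core hMKX hFXU hARN hAMN hSCX (k' + 1) n' (k' + 1) m (max m 1) (le_max_left _ _)
      (Yes mw 0 alg) (No mw 0 alg)
      (fun e he => hn mw (max m 1) alg e (le_trans hmw (le_max_left _ _)) (le_max_right _ _)
        (hmax _ _ _ hn1 hm) hadm he)
  · have hT := hTJJ k i0 c C ε hε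
    rw [Nat.add_comm (i0 + 1) k] at hT
    filter_upwards [hT, eventually_ge_atTop 1] with n hn hn1 mw m alg hmw hm hadm
    obtain ⟨n', rfl⟩ : ∃ n', n = n' + 1 := ⟨n - 1, by omega⟩
    exact core hMKX hFXU hARN hAMN hSCX (k + (i0 + 1)) n' k m (max m 1) (le_max_left _ _)
      (Yes mw (i0 + 1) alg) (No mw (i0 + 1) alg)
      (fun e he => hn mw (max m 1) alg e (le_trans hmw (le_max_left _ _)) (le_max_right _ _)
        (hmax _ _ _ hn1 hm) hadm he)

end Pool.Agent.H81.QC
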